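import Mathlib
import Pool.Agent.U93.L.Part
import Pool.Agent.U93.L.Level
import Pool.Agent.H302R3.Weak

/-!
# Functions with nonnegative multiplicities on solvable subgroups: isotypic parts and occurrence of
characters which are nontrivial on disjoint permutations
-/

set_option autoImplicit false
set_option linter.unusedSectionVars false

namespace Pool.Agent.U93.S

open Pool.Agent.H302R2 Pool.Agent.H302R3 Pool.Agent.U93.L

lemma toHeil {E : Type*} [Group E] [Finite E] {f : E → ℂ} (hf : IsSolHeilbronn f)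
    (hc : ∀ a b : E, a * b = b * a) : IsHeilbronn f :=
  hf.comp_sol (sol_of_comm hc) (MonoidHom.id E)

theorem part_sol {G K E : Type*} [Group G] [Finite G] [Group K] [Finite K] [Group E] [Finite E]
    {θ : G → ℂ} (hθ : IsSolHeilbronn θ) (a : K →* G) (b : E →* G) (hE : Group.IsSolvable E)
    (hab : ∀ x y, Commute (a x) (b y)) (χ : E →* ℂˣ) : IsSolHeilbronn (part θ a b χ) where
  conj g h := by
    unfold part
    congr 1
    refine finsum_congr fun y => ?_
    congr 1
    rw [map_mul, map_mul, map_inv]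
    have h1 := hθ.conj (a g * b y) (a h)
    rw [← h1]
    congr 1
    have h2 : b y * (a h)⁻¹ = (a h)⁻¹ * b y := ((hab h y).inv_left.eq).symm
    calc a h * a g * (a h)⁻¹ * b y = a h * a g * ((a h)⁻¹ * b y) := by group
      _ = a h * a g * (b y * (a h)⁻¹) := by rw [h2]
      _ = a h * (a g * b y) * (a h)⁻¹ := by group
  mult H hH ψ := by
    classical
    have : Fintype H := Fintype.ofFinite H
    have : Fintype E := Fintype.ofFinite E
    have hHE : Group.IsSolvable (H × E) := inferInstance
    obtain ⟨n, hn⟩ := hθ.mult_hom hHE ((a.comp H.subtype).noncommCoprod b (fun x y => hab x y))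
      (ψ.coprod χ)
    refine ⟨n, ?_⟩
    have hE : (Nat.card E : ℂ) ≠ 0 := by
      have : Nat.card E ≠ 0 := Nat.card_pos.ne'
      exact_mod_cast this
    rw [finsum_eq_sum_of_fintype]
    have h1 : ∀ h : H, part θ a b χ h * (((ψ h)⁻¹ : ℂˣ) : ℂ)
        = (Nat.card E : ℂ)⁻¹ * ∑ y : E, θ (a h * b y) * ((((ψ h) * (χ y))⁻¹ : ℂˣ) : ℂ) := by
      intro h
      unfold part
      rw [finsum_eq_sum_of_fintype, mul_assoc, Finset.sum_mul]
      congr 1
      refine Finset.sum_congr rfl fun y _ => ?_
      rw [mul_inv, Units.val_mul]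
      ring
    rw [Finset.sum_congr rfl (fun h _ => h1 h), ← Finset.mul_sum]
    have h2 : ∑ h : H, ∑ y : E, θ (a h * b y) * ((((ψ h) * (χ y))⁻¹ : ℂˣ) : ℂ)
        = n * (Nat.card (H × E) : ℂ) := by
      rw [← hn, Fintype.sum_prod_type]
      rfl
    rw [h2, Nat.card_prod]
    push_cast
    field_simp

/-- If a character of the commutative group `E` occurs, and is nontrivial at `e`, then the part
for a subgroup is not constant along `e`. -/
lemma part_ne_sol {G E : Type*} [Group G] [Finite G] [CommGroup E] [Finite E] {θ : G → ℂ}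
    (hθ : IsSolHeilbronn θ) (φ : E →* G) (E' : Subgroup E) (χ : E →* ℂˣ) {e : E} (he : χ e ≠ 1)
    (hne : ∑ᶠ x : E, θ (φ x) * (((χ x)⁻¹ : ℂˣ) : ℂ) ≠ 0) :
    part θ φ (φ.comp E'.subtype) (χ.comp E'.subtype) e
      ≠ part θ φ (φ.comp E'.subtype) (χ.comp E'.subtype) 1 := by
  have h1 : IsHeilbronn (fun x => θ (φ x)) := hθ.comp_sol (sol_of_comm mul_comm) φ
  have h2 := part_ne h1 (MonoidHom.id E) E' χ he hne
  have h3 : ∀ x : E, part (fun x => θ (φ x)) (MonoidHom.id E)
      ((MonoidHom.id E).comp E'.subtype) (χ.comp E'.subtype) x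
      = part θ φ (φ.comp E'.subtype) (χ.comp E'.subtype) x := by
    intro x
    unfold part
    congr 1
    refine finsum_congr fun y => ?_
    congr 1
    change θ (φ (x * y)) = θ (φ x * φ y)
    rw [map_mul]
  rw [h3, h3] at h2
  exact h2

/-- a function on a commutative group which is not constant along `t` contains a
character which is nontrivial at `t` -/
lemma exists_char_sol {E : Type*} [Group E] [Finite E] {f : E → ℂ} (hf : IsSolHeilbronn f)
    (hc : ∀ a b : E, a * b = b * a) {t : E}
    (ht : f t ≠ f 1) : ∃ χ : E →* ℂˣ, χ t ≠ 1 ∧ ∑ᶠ y : E, f y * (((χ y)⁻¹ : ℂˣ) : ℂ) ≠ 0 :=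
  exists_char (toHeil hf hc) hc ht

open Equiv Equiv.Perm

section oc

variable {α : Type} [Fintype α] [DecidableEq α]

/-- a linear character which is nontrivial on the permutations `g i` occurs in `θ` -/
def Oc {k : ℕ} (θ : alternatingGroup α → ℂ) (g : Fin k → alternatingGroup α) : Prop :=
  ∃ (E : Type) (_ : CommGroup E) (_ : Finite E) (φ : E →* alternatingGroup α) (e : Fin k → E)
    (χ : E →* ℂˣ), (∀ i, φ (e i) = g i) ∧ (∀ i, χ (e i) ≠ 1) ∧
      ∑ᶠ x : E, θ (φ x) * (((χ x)⁻¹ : ℂˣ) : ℂ) ≠ 0

/-- One of the permutations can be replaced by an element with the property `C` of the alternating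
group of a set which is disjoint from the supports of the other ones, if a function on this group
which is constant on the elements with property `C` is constant. -/
theorem Oc.replace {k : ℕ} {θ : alternatingGroup α → ℂ} (hθ : IsSolHeilbronn θ)
    {g : Fin k → alternatingGroup α} (h : Oc θ g) (i : Fin k) (S : α → Prop) [DecidablePred S]
    (hi : ∀ a, ¬ S a → (g i : Perm α) a = a)
    (hj : ∀ j, j ≠ i → ∀ a, S a → (g j : Perm α) a = a)
    (C : alternatingGroup {a // S a} → Prop)
    (hC : ∀ Φ : alternatingGroup {a // S a} → ℂ, IsSolHeilbronn Φ →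
      (∀ t, C t → Φ t = Φ 1) → ∀ t, Φ t = Φ 1) :
    ∃ t, C t ∧ Oc θ (Function.update g i (altSub S t)) := by
  classical
  obtain ⟨E, _, _, φ, e, χ, he, hχ, hne⟩ := h
  have : Fintype E := Fintype.ofFinite E
  let E' : Subgroup E :=
    { carrier := {x | ∀ a, S a → (φ x : Perm α) a = a}
      one_mem' := fun a _ => by rw [map_one]; rfl
      mul_mem' := by
        intro x y hx hy a ha
        rw [map_mul, Subgroup.coe_mul, Perm.mul_apply, hy a ha, hx a ha]
      inv_mem' := by
        intro x hx a ha
        rw [map_inv, Subgroup.coe_inv, Perm.inv_eq_iff_eq, hx a ha] }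
  have hE' : ∀ x : E', ∀ a, S a → (φ x : Perm α) a = a := fun x => x.2
  have he' : ∀ j, j ≠ i → e j ∈ E' := by
    intro j hji a ha
    have h1 := hj j hji a ha
    rw [← he j] at h1
    exact h1
  have hE's : Group.IsSolvable E' := sol_of_comm mul_comm
  set φE : E' →* alternatingGroup α := φ.comp E'.subtype with hφE
  set χE : E' →* ℂˣ := χ.comp E'.subtype with hχE
  have hcS : ∀ (x : alternatingGroup {a // S a}) (y : E'), Commute (altSub S x) (φE y) :=
    fun x y => altSub_comm _ x _ (hE' y)
  set Φ := part θ (altSub S) φE χE with hΦ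
  have hΦh : IsSolHeilbronn Φ := part_sol hθ (altSub S) φE hE's hcS χE
  obtain ⟨gS, hgS⟩ := exists_restrict (α := α) S (g i) hi
  have h1 : Φ gS ≠ Φ 1 := by
    have h2 := part_ne_sol hθ φ E' χ (hχ i) hne
    have h3 : Φ gS = part θ φ (φ.comp E'.subtype) (χ.comp E'.subtype) (e i) := by
      rw [hΦ]
      unfold part
      rw [hgS, he i]
    have h4 : Φ 1 = part θ φ (φ.comp E'.subtype) (χ.comp E'.subtype) 1 := by
      rw [hΦ]
      unfold part
      rw [map_one, map_one]
    rw [h3, h4]
    exact h2
  obtain ⟨tS, htC, ht1⟩ : ∃ t, C t ∧ Φ t ≠ Φ 1 := by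
    by_contra hcon
    push Not at hcon
    exact h1 (hC Φ hΦh hcon gS)
  refine ⟨tS, htC, ?_⟩
  set t := altSub S tS with ht
  set T := part θ (Subgroup.zpowers t).subtype φE χE with hT
  have hcT : ∀ (x : Subgroup.zpowers t) (y : E'),
      Commute ((Subgroup.zpowers t).subtype x) (φE y) := by
    rintro ⟨x, n, rfl⟩ y
    exact (hcS tS y).zpow_left n
  have hTh : IsSolHeilbronn T := part_sol hθ _ _ hE's hcT _
  have hT1 : T ⟨t, Subgroup.mem_zpowers t⟩ ≠ T 1 := by
    have h3 : T ⟨t, Subgroup.mem_zpowers t⟩ = Φ tS := rfl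
    have h4 : T 1 = Φ 1 := by
      rw [hT, hΦ]
      unfold part
      simp only [map_one]
    rw [h3, h4]
    exact ht1
  obtain ⟨l, hl, hl0⟩ := exists_char_sol hTh (zpowers_comm t) hT1
  let _ : CommGroup (Subgroup.zpowers t) :=
    { (inferInstance : Group (Subgroup.zpowers t)) with mul_comm := zpowers_comm t }
  refine ⟨Subgroup.zpowers t × E', inferInstance, inferInstance,
    (Subgroup.zpowers t).subtype.noncommCoprod φE hcT,
    fun j => if h : j = i then (⟨t, Subgroup.mem_zpowers t⟩, 1) else (1, ⟨e j, he' j h⟩),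
    l.coprod χE, ?_, ?_, ?_⟩
  · intro j
    by_cases hji : j = i
    · subst hji
      beta_reduce
      rw [dif_pos rfl, Function.update_self, MonoidHom.noncommCoprod_apply, map_one, mul_one]
      rfl
    · beta_reduce
      rw [dif_neg hji, Function.update_of_ne hji, MonoidHom.noncommCoprod_apply, map_one, one_mul]
      exact he j
  · intro j
    by_cases hji : j = i
    · subst hji
      beta_reduce
      rw [dif_pos rfl, MonoidHom.coprod_apply, map_one, mul_one]
      exact hl
    · beta_reduce
      rw [dif_neg hji, MonoidHom.coprod_apply, map_one, one_mul]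
      exact hχ j
  · intro h0
    apply hl0
    have : Fintype (Subgroup.zpowers t) := Fintype.ofFinite _
    have : Fintype E' := Fintype.ofFinite _
    rw [finsum_eq_sum_of_fintype] at h0 ⊢
    rw [Fintype.sum_prod_type] at h0
    have h5 : ∀ y : Subgroup.zpowers t, T y * (((l y)⁻¹ : ℂˣ) : ℂ)
        = (Nat.card E' : ℂ)⁻¹ * ∑ x : E', θ ((y : alternatingGroup α) * φE x) *
          ((((l y) * (χE x))⁻¹ : ℂˣ) : ℂ) := by
      intro y
      rw [hT]
      unfold part
      rw [finsum_eq_sum_of_fintype, mul_assoc, Finset.sum_mul]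
      congr 1
      refine Finset.sum_congr rfl fun x _ => ?_
      rw [mul_inv, Units.val_mul, Subgroup.coe_subtype]
      ring
    rw [Finset.sum_congr rfl (fun y _ => h5 y), ← Finset.mul_sum]
    have h6 : ∑ y : Subgroup.zpowers t, ∑ x : E', θ ((y : alternatingGroup α) * φE x) *
          ((((l y) * (χE x))⁻¹ : ℂˣ) : ℂ) = 0 := h0
    rw [h6, mul_zero]

end oc

end Pool.Agent.U93.S
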