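import Mathlib
import Pool.Agent.U93.S.Part
import Pool.Agent.U143.RG.Long

/-!
# Functions with nonnegative multiplicities on solvable subgroups: involutions moving `2 ^ a` points
-/

set_option autoImplicit false
set_option linter.unusedSectionVars false

namespace Pool.Agent.U93.S

open Equiv Equiv.Perm Pool.Agent.H302R2 Pool.Agent.H302R3

variable {β : Type} [Fintype β] [DecidableEq β]

lemma klein {x y z w : β} (hxy : x ≠ y) (hxz : x ≠ z) (hxw : x ≠ w) (hyz : y ≠ z) (hyw : y ≠ w)
    (hzw : z ≠ w) :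
    swap x z * swap y w * (swap x w * swap y z) = swap x y * swap z w := by
  ext b
  simp only [Perm.mul_apply, swap_apply_def]
  split_ifs <;> simp_all

lemma dbl_facts {x y z w : β} (hxy : x ≠ y) (hxz : x ≠ z) (hxw : x ≠ w) (hyz : y ≠ z)
    (hyw : y ≠ w) (hzw : z ≠ w) :
    (swap x y * swap z w).support.card = 4 ∧ sign (swap x y * swap z w) = 1 ∧
      swap x y * swap z w * (swap x y * swap z w) = 1 := by
  have hdj : Disjoint (swap x y) (swap z w) := by
    rw [disjoint_iff_disjoint_support, support_swap hxy, support_swap hzw]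
    simp only [Finset.disjoint_insert_left, Finset.mem_insert, Finset.mem_singleton,
      Finset.disjoint_singleton_left, not_or]
    exact ⟨⟨hxz, hxw⟩, ⟨hyz, hyw⟩⟩
  refine ⟨by rw [hdj.card_support_mul, card_support_swap hxy, card_support_swap hzw], ?_, ?_⟩
  · rw [Perm.sign_mul, sign_swap hxy, sign_swap hzw]; rfl
  · have h7 := hdj.commute.eq
    calc swap x y * swap z w * (swap x y * swap z w)
        = swap x y * (swap z w * swap x y) * swap z w := by group
      _ = (swap x y * swap x y) * (swap z w * swap z w) := by rw [← h7]; group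
      _ = 1 := by rw [swap_mul_self, swap_mul_self, one_mul]

/-- an involution moving a given number of points which fixes four points -/
lemma exists_rho {a : ℕ} (ha : 2 ≤ a) (hq : 2 ^ a ≤ Fintype.card β) (x y z w : β) :
    ∃ ρ : Perm β, ρ * ρ = 1 ∧ sign ρ = 1 ∧ ρ.support.card = 2 ^ a - 4 ∧
      ρ x = x ∧ ρ y = y ∧ ρ z = z ∧ ρ w = w := by
  classical
  obtain ⟨c, rfl⟩ := Nat.exists_eq_add_of_le ha
  have h4 : 2 ^ (2 + c) = 4 * 2 ^ c := by rw [pow_add]; norm_num
  have hc : 1 ≤ 2 ^ c := Nat.one_le_two_pow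
  let P : Finset β := {x, y, z, w}
  have hP : P.card ≤ 4 := Finset.card_le_four
  have hcard : 4 * 2 ^ c - 4 ≤ Fintype.card {b // b ∉ P} := by
    have h1 : Fintype.card {b // b ∉ P} = Fintype.card β - P.card := by
      rw [Fintype.card_subtype_compl, Fintype.card_coe]
    omega
  obtain ⟨ρ', hρ'⟩ := (exists_with_cycleType_iff (α := {b // b ∉ P})
    (m := Multiset.replicate (2 * 2 ^ c - 2) 2)).mpr ⟨by
      rw [Multiset.sum_replicate, smul_eq_mul]; omega, fun b hb => by
      rw [Multiset.eq_of_mem_replicate hb]⟩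
  have hct : (ofSubtype ρ').cycleType = Multiset.replicate (2 * 2 ^ c - 2) 2 := by
    rw [cycleType_ofSubtype, hρ']
  have hfix : ∀ b ∈ P, ofSubtype ρ' b = b := fun b hb =>
    ofSubtype_apply_of_not_mem _ (not_not.mpr hb)
  refine ⟨ofSubtype ρ', ?_, ?_, ?_, hfix x (by simp [P]), hfix y (by simp [P]),
    hfix z (by simp [P]), hfix w (by simp [P])⟩
  · rw [← pow_two, ← orderOf_dvd_iff_pow_eq_one, ← lcm_cycleType, hct]
    exact Multiset.lcm_dvd.mpr fun b hb => by rw [Multiset.eq_of_mem_replicate hb]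
  · rw [sign_of_cycleType, hct, Multiset.sum_replicate, Multiset.card_replicate, smul_eq_mul]
    have h5 : Even ((2 * 2 ^ c - 2) * 2 + (2 * 2 ^ c - 2)) := by
      rw [Nat.even_iff]; omega
    exact h5.neg_one_pow
  · rw [← sum_cycleType, hct, Multiset.sum_replicate, smul_eq_mul, h4]
    omega

/-- a double transposition is the product of two commuting even involutions which move `2 ^ a`
points -/
lemma exists_two {a : ℕ} (ha : 2 ≤ a) (hq : 2 ^ a ≤ Fintype.card β) {x y z w : β}
    (hxy : x ≠ y) (hxz : x ≠ z) (hxw : x ≠ w) (hyz : y ≠ z) (hyw : y ≠ w) (hzw : z ≠ w) :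
    ∃ s t : Perm β, sign s = 1 ∧ sign t = 1 ∧ s * s = 1 ∧ t * t = 1 ∧
      s.support.card = 2 ^ a ∧ t.support.card = 2 ^ a ∧ s * t = t * s ∧
      s * t = swap x y * swap z w := by
  classical
  obtain ⟨ρ, h1, h2, h3, hx, hy, hz, hw⟩ := exists_rho ha hq x y z w
  have h4 : 4 ≤ 2 ^ a := by
    calc 4 = 2 ^ 2 := by norm_num
      _ ≤ 2 ^ a := Nat.pow_le_pow_right (by norm_num) ha
  have hsw : ∀ u v : β, ρ u = u → ρ v = v → Disjoint (swap u v) ρ := by
    intro u v hu hv b
    by_cases hbu : b = u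
    · exact Or.inr (by rw [hbu, hu])
    · by_cases hbv : b = v
      · exact Or.inr (by rw [hbv, hv])
      · exact Or.inl (swap_apply_of_ne_of_ne hbu hbv)
  have key : ∀ u v u' v' : β, u ≠ v → u ≠ u' → u ≠ v' → v ≠ u' → v ≠ v' → u' ≠ v' →
      ρ u = u → ρ v = v → ρ u' = u' → ρ v' = v' →
      (swap u v * swap u' v') * ρ = ρ * (swap u v * swap u' v') ∧
      sign ((swap u v * swap u' v') * ρ) = 1 ∧
      ((swap u v * swap u' v') * ρ) * ((swap u v * swap u' v') * ρ) = 1 ∧
      ((swap u v * swap u' v') * ρ).support.card = 2 ^ a := by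
    intro u v u' v' e1 e2 e3 e4 e5 e6 f1 f2 f3 f4
    obtain ⟨g1, g2, g3⟩ := dbl_facts e1 e2 e3 e4 e5 e6
    have hd : Disjoint (swap u v * swap u' v') ρ :=
      (hsw u v f1 f2).mul_left (hsw u' v' f3 f4)
    have hcm := hd.commute.eq
    refine ⟨hcm, by rw [Perm.sign_mul, g2, h2, one_mul], ?_, ?_⟩
    · calc ((swap u v * swap u' v') * ρ) * ((swap u v * swap u' v') * ρ)
          = (swap u v * swap u' v') * (ρ * (swap u v * swap u' v')) * ρ := by group
        _ = ((swap u v * swap u' v') * (swap u v * swap u' v')) * (ρ * ρ) := by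
            rw [← hcm]; group
        _ = 1 := by rw [g3, h1, one_mul]
    · rw [hd.card_support_mul, g1, h3]; omega
  obtain ⟨a1, a2, a3, a4⟩ := key x z y w hxz hxy hxw hyz.symm hzw hyw hx hz hy hw
  obtain ⟨b1, b2, b3, b4⟩ := key x w y z hxw hxy hxz hyw.symm hzw.symm hyz hx hw hy hz
  have hprod : (swap x z * swap y w * ρ) * (swap x w * swap y z * ρ)
      = swap x y * swap z w := by
    calc (swap x z * swap y w * ρ) * (swap x w * swap y z * ρ)
        = (swap x z * swap y w) * (ρ * (swap x w * swap y z)) * ρ := by group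
      _ = (swap x z * swap y w * (swap x w * swap y z)) * (ρ * ρ) := by rw [← b1]; group
      _ = swap x y * swap z w := by rw [klein hxy hxz hxw hyz hyw hzw, h1, mul_one]
  refine ⟨_, _, a2, b2, a3, b3, a4, b4, ?_, hprod⟩
  -- commuting involutions, as the product is an involution
  obtain ⟨-, -, g3⟩ := dbl_facts hxy hxz hxw hyz hyw hzw
  rw [hprod]
  have h5 : ((swap x z * swap y w * ρ) * (swap x w * swap y z * ρ))⁻¹
      = (swap x w * swap y z * ρ) * (swap x z * swap y w * ρ) := by
    rw [mul_inv_rev, inv_eq_of_mul_eq_one_right a3, inv_eq_of_mul_eq_one_right b3]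
  rw [← h5, hprod]
  exact (inv_eq_of_mul_eq_one_right g3).symm

/-- A function on an alternating group which is constant on the even involutions moving `2 ^ a`
points is constant. -/
theorem ker_all {Φ : alternatingGroup β → ℂ} (hΦ : IsSolHeilbronn Φ) {a : ℕ} (ha : 2 ≤ a)
    (h5 : 5 ≤ Fintype.card β) (hq : 2 ^ a ≤ Fintype.card β)
    (h : ∀ t : alternatingGroup β, t * t = 1 ∧ (t : Perm β).support.card = 2 ^ a → Φ t = Φ 1)
    (t : alternatingGroup β) : Φ t = Φ 1 := by
  have hD : Pool.Agent.U143.RG.HasDoubleSwaps Φ := by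
    intro x y z w hxy hxz hxw hyz hyw hzw
    obtain ⟨s, u, h1, h2, h3, h4, h6, h7, h8, h9⟩ := exists_two ha hq hxy hxz hxw hyz hyw hzw
    have hs : Pool.Agent.U143.RG.InK Φ s := ⟨mem_alternatingGroup.mpr h1,
      h _ ⟨Subtype.ext h3, h6⟩⟩
    have hu : Pool.Agent.U143.RG.InK Φ u := ⟨mem_alternatingGroup.mpr h2,
      h _ ⟨Subtype.ext h4, h7⟩⟩
    rw [← h9]
    exact Pool.Agent.U143.RG.InK.mul hΦ hs hu h8
  obtain ⟨_, h2⟩ := Pool.Agent.U143.RG.InK.all hΦ hD h5 (mem_alternatingGroup.mp t.2)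
  exact h2

/-- A function on an alternating group which is constant on the elements moving at most four
points is constant. -/
theorem ker_four {Φ : alternatingGroup β → ℂ} (hΦ : IsSolHeilbronn Φ)
    (h : ∀ t : alternatingGroup β, (t : Perm β).support.card ≤ 4 → Φ t = Φ 1)
    (t : alternatingGroup β) : Φ t = Φ 1 := by
  by_cases h5 : 5 ≤ Fintype.card β
  · exact ker_all hΦ (a := 2) le_rfl h5 (by omega) (fun t ht => h t (by
      rw [ht.2]; norm_num)) t
  · refine h t ?_
    have := Finset.card_le_univ (t : Perm β).support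
    omega

end Pool.Agent.U93.S
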