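import Mathlib
import Pool.Agent.U93.S.Invol
import Pool.Agent.U93.Inv

/-!
# Disjoint involutions as translations of blocks
-/

set_option autoImplicit false
set_option linter.unusedSectionVars false

namespace Pool.Agent.U93.S

open Equiv Equiv.Perm Pool.Agent.H302R2 Pool.Agent.H302R3 Pool.Agent.U93

variable {α : Type} [Fintype α] [DecidableEq α]

lemma exists_equi {F : Type} [Field F] [Fintype F] [DecidableEq F] [CharP F 2] {τ : Perm α}
    (h2 : τ * τ = 1) (hc : τ.support.card = Fintype.card F) :
    ∃ u : F ↪ α, (∀ x, u x ∈ τ.support) ∧ ∀ x, τ (u x) = u (x + 1) := by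
  classical
  have hcard : Fintype.card F = Fintype.card {b // b ∈ τ.support} := by rw [Fintype.card_coe, hc]
  let e : F ≃ {b // b ∈ τ.support} := Fintype.equivOfCardEq hcard
  let s : Perm {b // b ∈ τ.support} := (e.symm.trans (Equiv.addRight (1 : F))).trans e
  let t : Perm {b // b ∈ τ.support} := τ.subtypePerm (fun b => apply_mem_support)
  have hse : ∀ x, s (e x) = e (x + 1) := by
    intro x
    simp [s]
  have hte : ∀ b : {b // b ∈ τ.support}, ((t b : {b // b ∈ τ.support}) : α) = τ b := fun b => rfl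
  have hs2 : s * s = 1 := by
    refine Equiv.ext fun b => ?_
    obtain ⟨x, rfl⟩ := e.surjective b
    rw [Perm.mul_apply, hse, hse, add_assoc, CharTwo.add_self_eq_zero, add_zero]
    rfl
  have ht2 : t * t = 1 := by
    refine Equiv.ext fun b => Subtype.ext ?_
    rw [Perm.mul_apply, hte, hte, ← Perm.mul_apply, h2]
    rfl
  have hs1 : ∀ b, s b ≠ b := by
    intro b
    obtain ⟨x, rfl⟩ := e.surjective b
    rw [hse]
    intro h
    have h3 := e.injective h
    exact one_ne_zero (add_eq_left.mp h3)
  have ht1 : ∀ b, t b ≠ b := by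
    intro b h
    have h3 := congrArg Subtype.val h
    rw [hte] at h3
    exact (mem_support.mp b.2) h3
  have hss : s.support.card = t.support.card := by
    have h3 : s.support = Finset.univ := by
      ext b; simp [hs1 b]
    have h4 : t.support = Finset.univ := by
      ext b; simp [ht1 b]
    rw [h3, h4]
  have b₀ : {b // b ∈ τ.support} := e 0
  have hs3 : s ≠ 1 := fun h => hs1 b₀ (by rw [h]; rfl)
  have ht3 : t ≠ 1 := fun h => ht1 b₀ (by rw [h]; rfl)
  have hconj : IsConj s t := isConj_of_prime Nat.prime_two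
    (orderOf_eq_prime (by rw [pow_two]; exact hs2) hs3)
    (orderOf_eq_prime (by rw [pow_two]; exact ht2) ht3) hss
  obtain ⟨c, hc⟩ := isConj_iff.mp hconj
  have hc' : ∀ b, t (c b) = c (s b) := by
    intro b
    rw [← hc]
    simp [Perm.mul_apply]
  refine ⟨⟨fun x => (c (e x)).1, fun x y hxy => e.injective (c.injective (Subtype.ext hxy))⟩,
    fun x => (c (e x)).2, fun x => ?_⟩
  change τ (c (e x)).1 = (c (e (x + 1))).1
  rw [← hse, ← hc', hte]

lemma exists_emb {F : Type} [Field F] [Fintype F] [DecidableEq F] [CharP F 2] {k m : ℕ}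
    (hkm : k ≤ m) (hm : m * Fintype.card F ≤ Fintype.card α) (τ : Fin k → Perm α)
    (h2 : ∀ i, τ i * τ i = 1) (hc : ∀ i, (τ i).support.card = Fintype.card F)
    (hd : ∀ i j, i ≠ j → Disjoint (τ i) (τ j)) :
    ∃ f : Fin m × F ↪ α, ∀ i : Fin k, viaEmbeddingHom f
      (Pool.Agent.H302R2.trans m F (Multiplicative.ofAdd (Pi.single (Fin.castLE hkm i) 1))) = τ i := by
  classical
  by_cases hα : Nonempty α
  swap
  · have h0 : Fintype.card α = 0 := by
      rw [Fintype.card_eq_zero_iff]
      exact not_nonempty_iff.mp hα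
    have hF : 0 < Fintype.card F := Fintype.card_pos
    have hm0 : m = 0 := by
      rw [h0] at hm
      rcases Nat.eq_zero_or_pos m with h | h
      · exact h
      · have := Nat.mul_pos h hF
        omega
    subst hm0
    refine ⟨⟨fun p => p.1.elim0, fun p => p.1.elim0⟩, fun i => ?_⟩
    exact (Fin.castLE hkm i).elim0
  choose u hu1 hu2 using fun i => exists_equi (F := F) (h2 i) (hc i)
  let a₀ : α := Classical.arbitrary α
  let f0 : Fin m × F → α := fun p => if h : p.1.val < k then u ⟨p.1.val, h⟩ p.2 else a₀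
  have hf0 : ∀ (i : Fin k) (x : F), f0 (Fin.castLE hkm i, x) = u i x := by
    intro i x
    simp only [f0, Fin.val_castLE, i.2, dif_pos]
  let s : Finset (Fin m × F) := Finset.univ.filter fun p => p.1.val < k
  have hs : ∀ p ∈ s, ∃ (i : Fin k) (x : F), p = (Fin.castLE hkm i, x) := by
    rintro ⟨i, x⟩ hp
    have h3 : i.val < k := (Finset.mem_filter.mp hp).2
    exact ⟨⟨i.val, h3⟩, x, rfl⟩
  have hs' : ∀ (i : Fin k) (x : F), (Fin.castLE hkm i, x) ∈ s := by
    intro i x
    exact Finset.mem_filter.mpr ⟨Finset.mem_univ _, i.2⟩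
  have hinj : Set.InjOn f0 s := by
    intro p hp p' hp' h
    obtain ⟨i, x, rfl⟩ := hs p hp
    obtain ⟨j, y, rfl⟩ := hs p' hp'
    rw [hf0, hf0] at h
    by_cases hij : i = j
    · subst hij
      rw [(u i).injective h]
    · exfalso
      have h3 := hu1 i x
      have h4 := hu1 j y
      rw [← h] at h4
      rcases hd i j hij (u i x) with h5 | h5
      · exact (mem_support.mp h3) h5
      · exact (mem_support.mp h4) h5
  obtain ⟨t, ht1, ht2⟩ := Finset.exists_superset_card_eq (s := s.image f0)
    (n := m * Fintype.card F) (Finset.card_image_le.trans (by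
      refine (Finset.card_le_univ s).trans ?_
      rw [Fintype.card_prod, Fintype.card_fin])) hm
  obtain ⟨g, hg⟩ := Finset.exists_equiv_extend_of_card_eq (α := Fin m × F) (t := t) (by
    rw [Fintype.card_prod, Fintype.card_fin, ht2]) ht1 hinj
  refine ⟨g.toEmbedding.trans (Function.Embedding.subtype _), fun i => ?_⟩
  set f : Fin m × F ↪ α := g.toEmbedding.trans (Function.Embedding.subtype _) with hf
  have hfu : ∀ (j : Fin k) (x : F), f (Fin.castLE hkm j, x) = u j x := by
    intro j x
    have h3 := hg _ (hs' j x)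
    rw [hf0] at h3
    exact h3
  have hsupp : ∀ b, τ i b ≠ b → ∃ y, b = f (Fin.castLE hkm i, y) := by
    intro b hb
    have h3 : Finset.univ.map (u i) = (τ i).support := by
      refine Finset.eq_of_subset_of_card_le ?_ ?_
      · intro c hc'
        obtain ⟨x, -, rfl⟩ := Finset.mem_map.mp hc'
        exact hu1 i x
      · rw [Finset.card_map, Finset.card_univ, hc i]
    have h4 : b ∈ (τ i).support := mem_support.mpr hb
    rw [← h3] at h4
    obtain ⟨y, -, hy⟩ := Finset.mem_map.mp h4
    exact ⟨y, by rw [hfu, hy]⟩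
  refine Equiv.ext fun b => ?_
  by_cases hb : ∃ p, f p = b
  · obtain ⟨⟨j, x⟩, rfl⟩ := hb
    rw [viaEmb_apply]
    by_cases hj : j = Fin.castLE hkm i
    · subst hj
      have h3 : Pool.Agent.H302R2.trans m F (Multiplicative.ofAdd (Pi.single (Fin.castLE hkm i) 1))
          (Fin.castLE hkm i, x) = (Fin.castLE hkm i, x + 1) := by
        simp [Pool.Agent.H302R2.trans]
      rw [h3, hfu, hfu, hu2]
    · have h3 : Pool.Agent.H302R2.trans m F (Multiplicative.ofAdd (Pi.single (Fin.castLE hkm i) 1))
          (j, x) = (j, x) := by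
        simp [Pool.Agent.H302R2.trans, Pi.single_eq_of_ne hj]
      rw [h3]
      by_contra hne
      obtain ⟨y, hy⟩ := hsupp _ (fun h => hne h.symm)
      exact hj (congrArg Prod.fst (f.injective hy))
  · push Not at hb
    rw [viaEmb_notMem f _ hb]
    by_contra hne
    obtain ⟨y, hy⟩ := hsupp _ (fun h => hne h.symm)
    exact hb _ hy.symm

lemma bh_inj {F : Type} [Field F] [Fintype F] [DecidableEq F] {m : ℕ} (hF : 3 ≤ Fintype.card F)
    (f : Fin m × F ↪ α) : Function.Injective (bh hF f) := by
  intro a b hab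
  have h1 : viaEmbeddingHom f (Pool.Agent.H302R2.trans m F a)
      = viaEmbeddingHom f (Pool.Agent.H302R2.trans m F b) := by
    rw [← bh_coe hF, ← bh_coe hF, hab]
  refine Multiplicative.toAdd.injective (funext fun i => ?_)
  have h2 := congrArg (fun σ : Perm α => σ (f (i, 0))) h1
  simp only [viaEmb_apply] at h2
  have h3 := f.injective h2
  simpa [Pool.Agent.H302R2.trans] using h3

end Pool.Agent.U93.S
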