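import Mathlib
import Pool.Agent.U93.S.Emb
import Pool.Agent.U93.L.Occ
import Pool.Agent.U143.RG.Blk

/-!
# Functions of small degree with nonnegative multiplicities on solvable subgroups contain no
characters which are nontrivial on many disjoint permutations
-/

set_option autoImplicit false
set_option linter.unusedSectionVars false

namespace Pool.Agent.U93.S

open Equiv Equiv.Perm Pool.Agent.H302R2 Pool.Agent.H302R3 Pool.Agent.U93 Pool.Agent.U93.L

variable {α : Type} [Fintype α] [DecidableEq α]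

/-- `r` is small relative to `n` and `k`: there are at least `k` (and at least two) disjoint blocks
of `q = 2 ^ a` points, and for all `j ≥ k` there are more than `r` vectors with exactly `j` nonzero
coordinates in the space of dimension `⌊n / q⌋` over the field with `q` elements. -/
def Small (n k r : ℕ) : Prop :=
  4 * k < n ∧ ∃ a : ℕ, 2 ≤ a ∧ 2 ≤ n / 2 ^ a ∧ k ≤ n / 2 ^ a ∧
    ∀ j, k ≤ j → j ≤ n / 2 ^ a → r < (n / 2 ^ a).choose j * (2 ^ a - 1) ^ j

/-- disjoint involutions moving `2 ^ a` points -/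
theorem no_oc {θ : alternatingGroup α → ℂ} (hθ : IsSolHeilbronn θ) {r k a : ℕ} (hr : θ 1 = r)
    (ha : 2 ≤ a) (hm2 : 2 ≤ Fintype.card α / 2 ^ a) (hkm : k ≤ Fintype.card α / 2 ^ a)
    (hlt : ∀ j, k ≤ j → j ≤ Fintype.card α / 2 ^ a →
      r < (Fintype.card α / 2 ^ a).choose j * (2 ^ a - 1) ^ j)
    (g : Fin k → alternatingGroup α) (hd : ∀ i j, i ≠ j → Disjoint (g i : Perm α) (g j))
    (hB : ∀ i, g i * g i = 1 ∧ (g i : Perm α).support.card = 2 ^ a) : ¬ Oc θ g := by
  classical
  have : Fact (Nat.Prime 2) := ⟨Nat.prime_two⟩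
  let F := GaloisField 2 a
  have : Fintype F := Fintype.ofFinite F
  have hcardF : Fintype.card F = 2 ^ a := by
    rw [← Nat.card_eq_fintype_card]; exact GaloisField.card 2 a (by omega)
  have h4 : 4 ≤ 2 ^ a := by
    calc 4 = 2 ^ 2 := by norm_num
      _ ≤ 2 ^ a := Nat.pow_le_pow_right (by norm_num) ha
  have hF : 3 ≤ Fintype.card F := by omega
  obtain ⟨m, hm⟩ : ∃ m, m = Fintype.card α / 2 ^ a := ⟨_, rfl⟩
  rw [← hm] at hm2 hkm hlt
  obtain ⟨f, hf⟩ := exists_emb (F := F) hkm (by
    rw [hcardF, hm]; exact Nat.div_mul_le_self _ _) (fun i => (g i : Perm α))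
    (fun i => congrArg Subtype.val (hB i).1) (fun i => by rw [hcardF]; exact (hB i).2) hd
  obtain ⟨N, hinv, hsum, hdec⟩ := Pool.Agent.U143.RG.block_decomp hθ hF hm2 f hr
  have hbig : ∀ y : Fin m → F, k ≤ wt y → N y = 0 := by
    intro y hy
    by_contra hcon
    have h3 : r < (Finset.univ.filter fun z : Fin m → F => wt z = wt y).card := by
      rw [card_wt_eq, hcardF]
      exact hlt _ hy (wt_le y)
    have h4 : (Finset.univ.filter fun z : Fin m → F => wt z = wt y).card ≤ ∑ z, N z := by
      calc (Finset.univ.filter fun z : Fin m → F => wt z = wt y).card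
          = ∑ z ∈ Finset.univ.filter (fun z : Fin m → F => wt z = wt y), 1 := by simp
        _ ≤ ∑ z ∈ Finset.univ.filter (fun z : Fin m → F => wt z = wt y), N z := by
            refine Finset.sum_le_sum fun z hz => ?_
            have := hinv y z (Finset.mem_filter.mp hz).2.symm
            omega
        _ ≤ ∑ z, N z := Finset.sum_le_sum_of_subset (Finset.filter_subset _ _)
    omega
  have hsmall : ∀ y : Fin m → F, N y ≠ 0 → ∃ i : Fin k, y (Fin.castLE hkm i) = 0 := by
    intro y hy
    by_contra hcon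
    push Not at hcon
    apply hy
    apply hbig
    have h5 : (Finset.univ.map (Fin.castLEEmb hkm)).card ≤ wt y := by
      rw [wt]
      refine Finset.card_le_card fun i hi => ?_
      obtain ⟨j, -, rfl⟩ := Finset.mem_map.mp hi
      exact Finset.mem_filter.mpr ⟨Finset.mem_univ _, hcon j⟩
    rw [Finset.card_map, Finset.card_univ, Fintype.card_fin] at h5
    exact h5
  rintro ⟨E, _, _, φ, e, χ, he, hχ, hne⟩
  apply hne
  have : Fintype E := Fintype.ofFinite E
  -- the part which is mapped to the translations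
  set E₂ : Subgroup E := (bh hF f).range.comap φ with hE₂
  obtain ⟨A, hA⟩ : ∃ A : E₂ →* Multiplicative (Fin m → F), ∀ x : E₂, bh hF f (A x) = φ x :=
    ⟨(MonoidHom.ofInjective (bh_inj hF f)).symm.toMonoidHom.comp
      ((φ.comp E₂.subtype).codRestrict (bh hF f).range (fun x => x.2)), fun x =>
      congrArg Subtype.val ((MonoidHom.ofInjective (bh_inj hF f)).apply_symm_apply ⟨φ x, x.2⟩)⟩
  have hei : ∀ i, e i ∈ E₂ := by
    intro i
    refine ⟨Multiplicative.ofAdd (Pi.single (Fin.castLE hkm i) 1), ?_⟩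
    rw [he i]
    exact Subtype.ext (hf i)
  have hAe : ∀ i, A ⟨e i, hei i⟩ = Multiplicative.ofAdd (Pi.single (Fin.castLE hkm i) 1) := by
    intro i
    apply bh_inj hF f
    rw [hA, ← show bh hF f (Multiplicative.ofAdd (Pi.single (Fin.castLE hkm i) 1)) = φ (e i) from by
      rw [he i]; exact Subtype.ext (hf i)]
  have hcE : Group.IsSolvable E := sol_of_comm mul_comm
  have hfh : IsHeilbronn (fun x : E => θ (φ x) * (((χ x)⁻¹ : ℂˣ) : ℂ)) :=
    (hθ.comp_sol hcE φ).twist χ
  refine sum_zero_of_sub hfh E₂ ?_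
  have : Fintype E₂ := Fintype.ofFinite E₂
  rw [finsum_eq_sum_of_fintype]
  set ψ : AddChar F ℂ := AddChar.FiniteField.primitiveChar_to_Complex F with hψ
  let Y : (Fin m → F) → Multiplicative (Fin m → F) →* ℂˣ := fun y =>
    MonoidHom.toHomUnits
      { toFun := fun a => ψ (∑ i, y i * Multiplicative.toAdd a i)
        map_one' := by simp
        map_mul' := fun a b => by
          rw [← AddChar.map_add_eq_mul, ← Finset.sum_add_distrib]
          congr 1
          refine Finset.sum_congr rfl fun i _ => ?_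
          rw [toAdd_mul, Pi.add_apply, mul_add] }
  have hY : ∀ y a, ((Y y a : ℂˣ) : ℂ) = ψ (∑ i, y i * Multiplicative.toAdd a i) :=
    fun y a => rfl
  have h6 : ∀ x : E₂, θ (φ x) * (((χ x)⁻¹ : ℂˣ) : ℂ)
      = ∑ y, (N y : ℂ) * ((((Y y).comp A * (χ.comp E₂.subtype)⁻¹) x : ℂˣ) : ℂ) := by
    intro x
    have h7 := hdec (Multiplicative.toAdd (A x))
    rw [ofAdd_toAdd, hA] at h7
    rw [h7, Finset.sum_mul]
    refine Finset.sum_congr rfl fun y _ => ?_
    have h8 : ((((Y y).comp A * (χ.comp E₂.subtype)⁻¹) x : ℂˣ) : ℂ)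
        = ψ (∑ i, y i * Multiplicative.toAdd (A x) i) * (((χ x)⁻¹ : ℂˣ) : ℂ) := by
      rw [MonoidHom.mul_apply, Units.val_mul]
      rfl
    rw [h8]
    ring
  rw [Finset.sum_congr rfl (fun x _ => h6 x), Finset.sum_comm]
  refine Finset.sum_eq_zero fun y _ => ?_
  rw [← Finset.mul_sum]
  by_cases hy : N y = 0
  · rw [hy]; simp
  obtain ⟨i, hi⟩ := hsmall y hy
  have h8 : (Y y).comp A * (χ.comp E₂.subtype)⁻¹ ≠ 1 := by
    intro h
    have h9 := DFunLike.congr_fun h ⟨e i, hei i⟩
    rw [MonoidHom.mul_apply, MonoidHom.inv_apply, MonoidHom.one_apply, mul_inv_eq_one,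
      MonoidHom.comp_apply, hAe] at h9
    apply hχ i
    have h10 : Y y (Multiplicative.ofAdd (Pi.single (Fin.castLE hkm i) 1)) = 1 := by
      refine Units.ext ?_
      rw [hY, toAdd_ofAdd]
      have h11 : ∑ j, y j * (Pi.single (Fin.castLE hkm i) (1 : F) : Fin m → F) j = 0 := by
        rw [Finset.sum_eq_single (Fin.castLE hkm i)]
        · rw [hi, zero_mul]
        · intro j _ hj
          rw [Pi.single_eq_of_ne hj, mul_zero]
        · intro h; exact absurd (Finset.mem_univ _) h
      rw [h11, AddChar.map_zero_eq_one]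
      rfl
    rw [h10] at h9
    exact h9.symm
  have h9 := finsum_char_eq_zero ((Y y).comp A * (χ.comp E₂.subtype)⁻¹) h8
  rw [finsum_eq_sum_of_fintype] at h9
  rw [h9, mul_zero]

/-- Replacing the members of a family one by one. -/
theorem iter {k : ℕ} {θ : alternatingGroup α → ℂ} (A B : alternatingGroup α → Prop)
    (step : ∀ (g : Fin k → alternatingGroup α) (i : Fin k),
      (∀ i j, i ≠ j → Disjoint (g i : Perm α) (g j)) → (∀ j, A (g j) ∨ B (g j)) →
      A (g i) → Oc θ g → ∃ t, B t ∧ (∀ j, j ≠ i → Disjoint (t : Perm α) (g j)) ∧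
        Oc θ (Function.update g i t))
    (g : Fin k → alternatingGroup α) (hd : ∀ i j, i ≠ j → Disjoint (g i : Perm α) (g j))
    (hA : ∀ i, A (g i)) (ho : Oc θ g) :
    ∃ g' : Fin k → alternatingGroup α, (∀ i j, i ≠ j → Disjoint (g' i : Perm α) (g' j)) ∧
      (∀ i, B (g' i)) ∧ Oc θ g' := by
  classical
  have key : ∀ s : Finset (Fin k), ∃ g' : Fin k → alternatingGroup α,
      (∀ i j, i ≠ j → Disjoint (g' i : Perm α) (g' j)) ∧ (∀ i ∈ s, B (g' i)) ∧
      (∀ i, i ∉ s → A (g' i)) ∧ Oc θ g' := by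
    intro s
    induction s using Finset.induction_on with
    | empty => exact ⟨g, hd, by simp, fun i _ => hA i, ho⟩
    | insert i s hi ih =>
      obtain ⟨g', h1, h2, h3, h4⟩ := ih
      obtain ⟨t, ht, htd, hto⟩ := step g' i h1 (fun j => by
        by_cases hj : j ∈ s
        · exact Or.inr (h2 j hj)
        · exact Or.inl (h3 j hj)) (h3 i hi) h4
      refine ⟨Function.update g' i t, ?_, ?_, ?_, hto⟩
      · intro a b hab
        by_cases hai : a = i
        · subst hai
          rw [Function.update_self, Function.update_of_ne hab.symm]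
          exact htd b hab.symm
        · by_cases hbi : b = i
          · subst hbi
            rw [Function.update_self, Function.update_of_ne hab]
            exact (htd a hab).symm
          · rw [Function.update_of_ne hai, Function.update_of_ne hbi]
            exact h1 a b hab
      · intro j hj
        by_cases hji : j = i
        · subst hji
          rw [Function.update_self]; exact ht
        · rw [Function.update_of_ne hji]
          exact h2 j ((Finset.mem_insert.mp hj).resolve_left hji)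
      · intro j hj
        rw [Finset.mem_insert, not_or] at hj
        rw [Function.update_of_ne hj.1]
        exact h3 j hj.2
  obtain ⟨g', h1, h2, -, h4⟩ := key Finset.univ
  exact ⟨g', h1, fun i => h2 i (Finset.mem_univ _), h4⟩

/-- first step: elements moving at most four points -/
lemma step_one {k : ℕ} {θ : alternatingGroup α → ℂ} (hθ : IsSolHeilbronn θ)
    (g : Fin k → alternatingGroup α) (i : Fin k)
    (hd : ∀ i j, i ≠ j → Disjoint (g i : Perm α) (g j)) (hog : Oc θ g) :
    ∃ t : alternatingGroup α, (t : Perm α).support.card ≤ 4 ∧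
      (∀ j, j ≠ i → Disjoint (t : Perm α) (g j)) ∧ Oc θ (Function.update g i t) := by
  classical
  obtain ⟨S, hS⟩ : ∃ S : α → Prop, ∀ b, S b ↔ (g i : Perm α) b ≠ b := ⟨_, fun _ => Iff.rfl⟩
  obtain ⟨t, ht, hto⟩ := hog.replace hθ i S
    (fun b hb => not_not.mp ((hS b).not.mp hb))
    (fun j hji b hb => (hd i j hji.symm b).resolve_left ((hS b).mp hb))
    (fun t : alternatingGroup {b // S b} => (t : Perm {b // S b}).support.card ≤ 4)
    (fun Φ hΦ h => ker_four hΦ h)
  refine ⟨_, ?_, ?_, hto⟩
  · rw [altSub_support]; exact ht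
  · intro j hji b
    by_cases hb : S b
    · exact Or.inr ((hd i j hji.symm b).resolve_left ((hS b).mp hb))
    · exact Or.inl (altSub_fix _ t hb)

/-- second step: involutions moving `2 ^ a` points -/
lemma step_two {k a : ℕ} (ha : 2 ≤ a) (hkm : k ≤ Fintype.card α / 2 ^ a)
    (h4k : 4 * k < Fintype.card α) {θ : alternatingGroup α → ℂ} (hθ : IsSolHeilbronn θ)
    (g : Fin k → alternatingGroup α) (i : Fin k)
    (hd : ∀ i j, i ≠ j → Disjoint (g i : Perm α) (g j))
    (hc : ∀ j, (g j : Perm α).support.card ≤ 2 ^ a) (hog : Oc θ g) :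
    ∃ t : alternatingGroup α, (t * t = 1 ∧ (t : Perm α).support.card = 2 ^ a) ∧
      (∀ j, j ≠ i → Disjoint (t : Perm α) (g j)) ∧ Oc θ (Function.update g i t) := by
  classical
  have h4 : 4 ≤ 2 ^ a := by
    calc 4 = 2 ^ 2 := by norm_num
      _ ≤ 2 ^ a := Nat.pow_le_pow_right (by norm_num) ha
  -- a set containing the support which is disjoint from the other supports
  obtain ⟨U, hU⟩ : ∃ U : Finset α, U = (Finset.univ.erase i).biUnion
    fun j => (g j : Perm α).support := ⟨_, rfl⟩
  have hUc : U.card ≤ (k - 1) * 2 ^ a := by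
    rw [hU]
    refine Finset.card_biUnion_le.trans ?_
    refine (Finset.sum_le_card_nsmul _ _ (2 ^ a) fun j _ => hc j).trans ?_
    rw [Finset.card_erase_of_mem (Finset.mem_univ _), Finset.card_univ, Fintype.card_fin,
      smul_eq_mul]
  have hk1 : 1 ≤ k := by have := i.2; omega
  have hspace : max (2 ^ a) 5 ≤ (Finset.univ \ U).card := by
    rw [Finset.card_sdiff, Finset.inter_univ, Finset.card_univ]
    have h5 : k * 2 ^ a ≤ Fintype.card α :=
      (Nat.mul_le_mul_right _ hkm).trans (Nat.div_mul_le_self _ _)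
    have h6 : (k - 1) * 2 ^ a + 2 ^ a = k * 2 ^ a := by
      obtain ⟨l, rfl⟩ := Nat.exists_eq_add_of_le' hk1
      rw [Nat.add_sub_cancel]; ring
    by_cases h7 : 5 ≤ 2 ^ a
    · rw [max_eq_left h7]; omega
    · have h8 : 2 ^ a = 4 := by omega
      rw [h8] at h6 hUc ⊢
      rw [max_eq_right (by norm_num)]
      omega
  have hsub : (g i : Perm α).support ⊆ Finset.univ \ U := by
    intro b hb
    rw [Finset.mem_sdiff]
    refine ⟨Finset.mem_univ _, fun hbU => ?_⟩
    rw [hU] at hbU
    obtain ⟨j, hj, hbj⟩ := Finset.mem_biUnion.mp hbU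
    rcases hd i j (Finset.ne_of_mem_erase hj).symm b with h | h
    · exact (mem_support.mp hb) h
    · exact (mem_support.mp hbj) h
  obtain ⟨T, hT1, hT2, hT3⟩ := Finset.exists_subsuperset_card_eq hsub
    (n := max (2 ^ a) 5) ((hc i).trans (le_max_left _ _)) hspace
  obtain ⟨S, hS⟩ : ∃ S : α → Prop, ∀ b, S b ↔ b ∈ T := ⟨_, fun _ => Iff.rfl⟩
  have hTj : ∀ j, j ≠ i → ∀ b, S b → (g j : Perm α) b = b := by
    intro j hji b hb
    by_contra hne'
    have h5 := hT2 ((hS b).mp hb)
    rw [Finset.mem_sdiff, hU] at h5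
    exact h5.2 (Finset.mem_biUnion.mpr ⟨j, Finset.mem_erase.mpr ⟨hji, Finset.mem_univ _⟩,
      mem_support.mpr hne'⟩)
  have hTc : Fintype.card {b // S b} = max (2 ^ a) 5 := by
    rw [Fintype.card_of_subtype T (fun x => (hS x).symm), hT3]
  have hT5 : 5 ≤ Fintype.card {b // S b} := by rw [hTc]; exact le_max_right _ _
  have hTq : 2 ^ a ≤ Fintype.card {b // S b} := by rw [hTc]; exact le_max_left _ _
  obtain ⟨t, ht, hto⟩ := hog.replace hθ i S
    (fun b hb => by
      by_contra hne'
      exact hb ((hS b).mpr (hT1 (mem_support.mpr hne'))))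
    hTj
    (fun t : alternatingGroup {b // S b} =>
      t * t = 1 ∧ (t : Perm {b // S b}).support.card = 2 ^ a)
    (fun Φ hΦ h => ker_all hΦ ha hT5 hTq h)
  refine ⟨_, ⟨?_, ?_⟩, ?_, hto⟩
  · rw [← map_mul, ht.1, map_one]
  · rw [altSub_support]; exact ht.2
  · intro j hji b
    by_cases hb : S b
    · exact Or.inr (hTj j hji b hb)
    · exact Or.inl (altSub_fix _ t hb)

/-- Let `θ` be a function of small degree with nonnegative multiplicities on solvable subgroups of
the alternating group, and `φ` a homomorphism of the commutative group `E` to it. If the images of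
`e 0, …, e (k - 1)` have pairwise disjoint supports and `χ (e i) ≠ 1` for all `i`, then `χ` does not
occur in `θ ∘ φ`. -/
theorem level_sol {k : ℕ} {θ : alternatingGroup α → ℂ} (hθ : IsSolHeilbronn θ) {r : ℕ}
    (hr : θ 1 = r) (hrk : Small (Fintype.card α) k r)
    (E : Type) [CommGroup E] [Finite E] (φ : E →* alternatingGroup α) (e : Fin k → E)
    (hdis : ∀ i j, i ≠ j → Disjoint (φ (e i) : Perm α) (φ (e j)))
    (χ : E →* ℂˣ) (hχ : ∀ i, χ (e i) ≠ 1) :
    ∑ᶠ x : E, θ (φ x) * (((χ x)⁻¹ : ℂˣ) : ℂ) = 0 := by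
  obtain ⟨h4k, a, ha, hm2, hkm, hlt⟩ := hrk
  have h4 : 4 ≤ 2 ^ a := by
    calc 4 = 2 ^ 2 := by norm_num
      _ ≤ 2 ^ a := Nat.pow_le_pow_right (by norm_num) ha
  by_contra hne
  have ho : Oc θ (fun i => φ (e i)) := ⟨E, inferInstance, inferInstance, φ, e, χ, fun _ => rfl,
    hχ, hne⟩
  obtain ⟨g, hg1, hg2, hg3⟩ := iter (θ := θ) (fun _ => True)
    (fun t : alternatingGroup α => (t : Perm α).support.card ≤ 4)
    (fun g i hd _ _ hog => step_one hθ g i hd hog) _ hdis (fun _ => trivial) ho
  obtain ⟨g', hg1', hg2', hg3'⟩ := iter (θ := θ)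
    (fun t : alternatingGroup α => (t : Perm α).support.card ≤ 4)
    (fun t : alternatingGroup α => t * t = 1 ∧ (t : Perm α).support.card = 2 ^ a)
    (fun g i hd hAB _ hog => step_two ha hkm h4k hθ g i hd (fun j => by
      rcases hAB j with h | h
      · exact h.trans h4
      · exact h.2.le) hog) g hg1 hg2 hg3
  exact no_oc hθ hr ha hm2 hkm hlt g' hg1' hg2' hg3'

end Pool.Agent.U93.S
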