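import Mathlib
import Pool.Agent.U93.S.Lev

/-!
# Functions with nonnegative multiplicities on solvable subgroups: the vanishing property
-/

set_option autoImplicit false
set_option linter.unusedSectionVars false

namespace Pool.Agent.U93.S

open Equiv Equiv.Perm Pool.Agent.H302R2 Pool.Agent.H302R3 Pool.Agent.U93 Pool.Agent.U93.L

variable {α : Type} [Fintype α] [DecidableEq α]

/-- Functions of small degree have the vanishing property. -/
theorem nilZ_sol {k : ℕ} (G : Subgroup (Perm α)) (hG : alternatingGroup α ≤ G) {θ : G → ℂ}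
    (hθ : IsSolHeilbronn θ) {r : ℕ} (hr : θ 1 = r) (hrk : Small (Fintype.card α) k r) :
    NilZ (Fin k) (ext0 G θ) := by
  classical
  intro P _ _ _ φ Λ p hcomm hdis hsgn hΛ
  -- the part which is mapped to `G`
  set Q : Subgroup P := G.comap φ with hQ
  let φ' : Q →* G := (φ.comp Q.subtype).codRestrict G (fun x => x.2)
  have hp : ∀ i, p i ∈ Q := fun i => hG (mem_alternatingGroup.mpr (hsgn i))
  let p' : Fin k → Q := fun i => ⟨p i, hp i⟩
  let Λ' : Q →* ℂˣ := Λ.comp Q.subtype
  have : Fintype P := Fintype.ofFinite P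
  have : Fintype Q := Fintype.ofFinite Q
  have hQs : Group.IsSolvable Q := inferInstance
  have hf : IsHeilbronn (fun x : Q => θ (φ' x) * (((Λ' x)⁻¹ : ℂˣ) : ℂ)) := by
    exact (hθ.comp_sol hQs φ').twist Λ'
  have hsum : ∑ᶠ x : P, ext0 G θ (φ x) * (((Λ x)⁻¹ : ℂˣ) : ℂ)
      = ∑ᶠ x : Q, θ (φ' x) * (((Λ' x)⁻¹ : ℂˣ) : ℂ) := by
    rw [finsum_eq_sum_of_fintype, finsum_eq_sum_of_fintype]
    rw [← Finset.sum_subset (Finset.subset_univ (Finset.univ.filter fun x => x ∈ Q))]
    · rw [Finset.sum_subtype (Finset.univ.filter fun x => x ∈ Q) (p := fun x => x ∈ Q) (by simp)]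
      refine Finset.sum_congr rfl fun x _ => ?_
      have h1 : ext0 G θ (φ (x : P)) = θ (φ' x) := by
        unfold ext0
        rw [dif_pos (show φ (x : P) ∈ G from x.2)]
        rfl
      rw [h1]
      rfl
    · intro x _ hx
      rw [Finset.mem_filter, not_and] at hx
      have h1 : ext0 G θ (φ x) = 0 := by
        unfold ext0
        exact dif_neg (hx (Finset.mem_univ _))
      rw [h1, zero_mul]
  rw [hsum]
  -- the commutative group generated by the `p i`
  set C : Subgroup Q := Subgroup.closure (Set.range p') with hC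
  have hCc : ∀ x ∈ Set.range p', ∀ y ∈ Set.range p', x * y = y * x := by
    rintro _ ⟨i, rfl⟩ _ ⟨j, rfl⟩
    by_cases hij : i = j
    · rw [hij]
    · exact Subtype.ext (hcomm i j hij).eq
  let _ : CommGroup C := Subgroup.closureCommGroupOfComm hCc
  have hCA : ∀ x ∈ C, sign (φ (x : P)) = 1 := by
    intro x hx
    have h1 : C ≤ (sign.comp (φ.comp Q.subtype)).ker := by
      rw [hC, Subgroup.closure_le]
      rintro _ ⟨i, rfl⟩
      exact hsgn i
    exact h1 hx
  let ψ : C →* alternatingGroup α := (φ.comp (Q.subtype.comp C.subtype)).codRestrict _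
    (fun x => mem_alternatingGroup.mpr (hCA x x.2))
  refine sum_zero_of_sub hf C ?_
  have h1 := level_sol (hθ.comp (Subgroup.inclusion hG)) (r := r) (by simpa using hr) hrk C ψ
    (fun i => ⟨p' i, Subgroup.subset_closure ⟨i, rfl⟩⟩)
    (fun i j hij => hdis i j hij) (Λ'.comp C.subtype) (fun i => hΛ i)
  exact h1

lemma choose_le_pow (k : ℕ) : ∀ l : ℕ, (k + l).choose k ≤ (k + 1) ^ l := by
  intro l
  induction l with
  | zero => simp
  | succ l ih =>
    have h1 : (k + l + 1).choose k * (l + 1) = (k + l).choose k * (k + l + 1) := by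
      have h2 := Nat.add_one_mul_choose_eq (k + l) l
      have h3 : (k + l).choose l = (k + l).choose k := by
        rw [← Nat.choose_symm_add]
      have h4 : (k + l + 1).choose (l + 1) = (k + l + 1).choose k := by
        rw [show k + l + 1 = k + (l + 1) by ring, ← Nat.choose_symm_add]
      rw [h3] at h2
      rw [← h4]
      linarith
    have h5 : k + l + 1 ≤ (k + 1) * (l + 1) := by nlinarith
    have h6 : (k + l + 1).choose k * (l + 1) ≤ ((k + 1) ^ l * (k + 1)) * (l + 1) := by
      rw [h1]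
      calc (k + l).choose k * (k + l + 1) ≤ (k + 1) ^ l * ((k + 1) * (l + 1)) :=
            Nat.mul_le_mul ih h5
        _ = _ := by ring
    have h7 := Nat.le_of_mul_le_mul_right h6 (by omega)
    rw [pow_succ]
    exact h7

lemma choose_mul_pow {m j b k : ℕ} (hk : k ≤ j) (hj : j ≤ m) (hb : k + 1 ≤ b) :
    m.choose k * b ^ k ≤ m.choose j * b ^ j := by
  have h1 := Nat.choose_mul (n := m) hk
  have h3 : 1 ≤ (m - k).choose (j - k) := Nat.choose_pos (by omega)
  obtain ⟨l, rfl⟩ := Nat.exists_eq_add_of_le hk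
  have h2 : (k + l).choose k ≤ b ^ l :=
    (choose_le_pow k l).trans (Nat.pow_le_pow_left hb l)
  have h4 : m.choose k ≤ m.choose (k + l) * b ^ l := by
    calc m.choose k = m.choose k * 1 := (mul_one _).symm
      _ ≤ m.choose k * (m - k).choose (k + l - k) := Nat.mul_le_mul_left _ h3
      _ = m.choose (k + l) * (k + l).choose k := h1.symm
      _ ≤ _ := Nat.mul_le_mul_left _ h2
  calc m.choose k * b ^ k ≤ m.choose (k + l) * b ^ l * b ^ k := Nat.mul_le_mul_right _ h4
    _ = m.choose (k + l) * b ^ (k + l) := by rw [pow_add]; ring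

/-- one inequality is enough if the blocks have at least `k + 2` points -/
lemma small_of {n k r a : ℕ} (h4 : 4 * k < n) (ha : 2 ≤ a) (hk : k + 2 ≤ 2 ^ a)
    (h2 : 2 ≤ n / 2 ^ a) (hr : r < (n / 2 ^ a).choose k * (2 ^ a - 1) ^ k) : Small n k r := by
  refine ⟨h4, a, ha, h2, ?_, fun j hj hjm => hr.trans_le (choose_mul_pow hj hjm (by omega))⟩
  by_contra hcon
  rw [Nat.choose_eq_zero_of_lt (by omega), zero_mul] at hr
  omega

/-- the case `k = 2` -/
lemma small_two {n r a : ℕ} (hn : 12 ≤ n) (ha : 2 ≤ a)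
    (hr : r < (n / 2 ^ a).choose 2 * (2 ^ a - 1) ^ 2) : Small n 2 r := by
  have h4 : 4 ≤ 2 ^ a := by
    calc 4 = 2 ^ 2 := by norm_num
      _ ≤ 2 ^ a := Nat.pow_le_pow_right (by norm_num) ha
  refine small_of (by omega) ha h4 ?_ hr
  by_contra hcon
  rw [Nat.choose_eq_zero_of_lt (by omega), zero_mul] at hr
  omega

/-- the previous bound -/
lemma small_of_four {n k r : ℕ} (h4 : 4 * k < n) (hk : 2 ≤ k) (hr : r < (n / 4).choose k) :
    Small n k r := by
  have h1 : k ≤ n / 4 := by omega
  refine ⟨h4, 2, le_rfl, ?_, ?_, fun j hj hjm => ?_⟩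
  · norm_num; omega
  · norm_num; omega
  · norm_num at hjm ⊢
    refine hr.trans_le ((choose_le_two_pow hj hjm).trans ?_)
    exact Nat.mul_le_mul_left _ (Nat.pow_le_pow_left (by norm_num) _)

end Pool.Agent.U93.S
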