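import Pool.Agent.U93.S.Gen
import Pool.Agent.U143.RG.Fin

/-!
# Orders of L-functions of characters whose coset sums vanish, positivity on solvable subgroups only
-/

set_option autoImplicit false
set_option linter.unusedSectionVars false

namespace Pool.Agent.U93.S

open Pool.Agent.H302R2 Pool.Agent.H302R3 Pool.Agent.H541R3.ART Pool.Agent.R389
  Pool.Agent.N850.Art Pool.Agent.N850.Dur Pool.Agent.U93.L Pool.Agent.U143.RG Equiv

lemma Small.mono {n k r s : ℕ} (h : Small n k r) (hs : s ≤ r) : Small n k s := by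
  obtain ⟨h4, a, ha, h2, hk, hlt⟩ := h
  exact ⟨h4, a, ha, h2, hk, fun j hj hjm => hs.trans_lt (hlt j hj hjm)⟩

variable {G : Type} [Group G] [Finite G] {L : (G → ℂ) → ℂ → ℂ} {c : ℂ}

/-- the order at `c` of a function with vanishing pairing -/
theorem order_zero_pair (hL : ∀ χ ∈ Irr G, MeromorphicAt (L χ) c ∧ meromorphicOrderAt (L χ) c ≠ ⊤)
    [Fintype G] {χ : G → ℂ} (hχ : χ ∈ Irr G)
    (h0 : ∑ g : G, (theta (ords L c) : G → ℂ) g * χ g⁻¹ = 0) :
    meromorphicOrderAt (L χ) c = 0 := by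
  rw [theta_pair _ hχ] at h0
  have h1 : (Nat.card G : ℂ) ≠ 0 := by
    exact_mod_cast Nat.card_pos.ne'
  have h2 : ords L c χ = 0 := by
    have := (mul_eq_zero.mp h0).resolve_right h1
    exact_mod_cast this
  have h3 : meromorphicOrderAt (L χ) c = ((ords L c χ : ℤ) : WithTop ℤ) :=
    (WithTop.coe_untop₀_of_ne_top (hL χ hχ).2).symm
  rw [h3, h2]
  rfl

/-- Characters whose coset sums vanish, for functions which are nonnegative on the solvable
subgroups and grow slowly along a chain. -/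
theorem order_zero_chain
    (hL : ∀ χ ∈ Irr G, MeromorphicAt (L χ) c ∧ meromorphicOrderAt (L χ) c ≠ ⊤)
    (hsol : ∀ U : Subgroup G, Group.IsSolvable U → ∀ (ψ : U →* ℂˣ) (m : (G → ℂ) → ℕ),
      IsDecomp (ind U (fun h => ((ψ h : ℂˣ) : ℂ))) m →
        0 ≤ meromorphicOrderAt (fun s => ∏ᶠ χ ∈ Irr G, L χ s ^ m χ) c)
    (r t : ℕ) (C : ℕ → Subgroup G) (hC : Monotone C) (hn : ∀ i, (C i).Normal) (h0 : C 0 = ⊥)
    (hs : Group.IsSolvable (C t))
    (hg : ∀ i < t, ∀ m m' : (G → ℂ) → ℕ, IsDecomp (ind (C i) (fun _ => 1)) m →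
      IsDecomp (ind (C (i + 1)) (fun _ => 1)) m' →
        meromorphicOrderAt (fun s => ∏ᶠ χ ∈ Irr G, L χ s ^ m χ) c
          ≤ meromorphicOrderAt (fun s => ∏ᶠ χ ∈ Irr G, L χ s ^ m' χ) c + (r : WithTop ℤ))
    (hl : ∀ m : (G → ℂ) → ℕ, IsDecomp (ind (C t) (fun _ => 1)) m →
      meromorphicOrderAt (fun s => ∏ᶠ χ ∈ Irr G, L χ s ^ m χ) c ≤ (r : WithTop ℤ))
    {n k : ℕ} {Γ : Type} [Group Γ] [Finite Γ] {j : Perm (Fin n) →* Γ} (hj : Central j)
    {ι : G →* Γ} (hι : Function.Injective ι) (hA : ∀ σ ∈ alternatingGroup (Fin n), j σ ∈ ι.range)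
    (hrk : Small n k r) {X : Γ → ℂ} (hXc : ∀ a b, X (b * a * b⁻¹) = X a)
    (hirr : (fun g => X (ι g)) ∈ Irr G) (hX : CosG j k X) :
    meromorphicOrderAt (L fun g => X (ι g)) c = 0 := by
  classical
  have : Fintype G := Fintype.ofFinite G
  refine order_zero_pair hL hirr ?_
  refine ords_prop hL hsol r t C hC hn h0 hs hg hl
    (fun θ => ∑ g : G, θ g * X (ι g⁻¹) = 0) (fun a b ha hb => ?_) (fun η hη s hsr h1 => ?_)
  · simp only [add_mul, Finset.sum_add_distrib]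
    rw [ha, hb, add_zero]
  · exact pair_zero_sol hj hι hA hη h1 (hrk.mono hsr) hXc hX

end Pool.Agent.U93.S
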